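import Mathlib

/-!
# LAG: linear arboricity of graphs of girth at least `C log Δ`; definitions of the random process

All objects concern one graph `H` of maximum degree at most four (`Env`), and a state `ω` which
gives to each vertex `v`

* `(ω v).1.1 : Fin 3`: a pairing of the four slots `Fin 4` at `v` (`kx t s` is the partner of `s`),
* `(ω v).1.2 : Fin L`: the edge in slot `s` is killed by `v` if this value is `s` and `v` is allowed,
* `(ω v).2 : Fin 4 → Bool`: a bit for each slot (used at the end of a trail).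

A dart `(u, v)` means: we move along the edge `u v` from `u` to `v`.
-/

set_option autoImplicit false

namespace Pool.Agent.LAG

open SimpleGraph

section graph

variable {V : Type}

/-- `a` and `b` are joined by a walk of length at most `r`. -/
def near (G : SimpleGraph V) (r : ℕ) (a b : V) : Prop := ∃ p : G.Walk a b, p.length ≤ r

/-- All cycles of `G` have length more than `g`. -/
def Big (G : SimpleGraph V) (g : ℕ) : Prop := ∀ (v : V) (c : G.Walk v v), c.IsCycle → g < c.length

/-- `z 0, …, z n` is a path of `G` with `n` edges. -/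
def IsP (G : SimpleGraph V) (z : ℕ → V) (n : ℕ) : Prop :=
  (∀ t, t < n → G.Adj (z t) (z (t + 1))) ∧ ∀ s t, s ≤ n → t ≤ n → z s = z t → s = t

/-- `z 0, …, z (m - 1), z m = z 0` is a cycle of `G` with `m` edges. -/
def IsC (G : SimpleGraph V) (z : ℕ → V) (m : ℕ) : Prop :=
  3 ≤ m ∧ (∀ t, t < m → G.Adj (z t) (z (t + 1))) ∧ z m = z 0 ∧
    ∀ s t, s < m → t < m → z s = z t → s = t

/-- The periodic extension of a finite sequence. -/
def cyc {n : ℕ} (z : Fin (n + 1) → V) (t : ℕ) : V := z (Fin.ofNat (n + 1) t)

end graph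

/-- The partner of the slot `s` for the pairing `t`. -/
def kx (t : Fin 3) (s : Fin 4) : Fin 4 := ![![1, 0, 3, 2], ![2, 3, 0, 1], ![3, 2, 1, 0]] t s

lemma kx_kx : ∀ (t : Fin 3) (s : Fin 4), kx t (kx t s) = s := by decide

lemma kx_ne : ∀ (t : Fin 3) (s : Fin 4), kx t s ≠ s := by decide

lemma kx_unique : ∀ (s s' : Fin 4), s ≠ s' →
    ∃ t : Fin 3, kx t s = s' ∧ ∀ t' : Fin 3, kx t' s = s' → t' = t := by decide

/-- The data of one graph `H` of maximum degree at most four: slots of the edges at every vertex,
the set of vertices which are allowed to kill an edge, an order of the darts. -/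
structure Env (V : Type) where
  /-- the graph -/
  H : SimpleGraph V
  /-- `slot v u` is the slot of the edge `v u` at `v` -/
  slot : V → V → Fin 4
  /-- the vertices which are allowed to kill -/
  al : V → Prop
  /-- an order of the darts -/
  ord : V × V → ℕ
  slot_inj : ∀ v u w, H.Adj v u → H.Adj v w → slot v u = slot v w → u = w
  ord_inj : Function.Injective ord

/-- The state at one vertex. -/
abbrev St (L : ℕ) : Type := (Fin 3 × Fin L) × (Fin 4 → Bool)

section process

open Classical

variable {V : Type} {L : ℕ} (E : Env V) (ω : V → St L)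

/-- At the vertex `v`, the edges to `u` and to `w` are partners. -/
def Ptn (v u w : V) : Prop := kx (ω v).1.1 (E.slot v u) = E.slot v w

/-- The vertex `v` kills the edge `v u`. -/
def Kil (v u : V) : Prop := E.al v ∧ (ω v).1.2.val = (E.slot v u).val

/-- The edge `u v` of `H` is alive. -/
def Alv (u v : V) : Prop := E.H.Adj u v ∧ ¬ Kil E ω u v ∧ ¬ Kil E ω v u

/-- `w` is the next vertex after the dart `e`. -/
def Nxt (e : V × V) (w : V) : Prop := Alv E ω e.2 w ∧ Ptn E ω e.2 e.1 w

/-- The trail stops at the dart `e`. -/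
def stp (e : V × V) : Prop := ¬ ∃ w, Nxt E ω e w

/-- The next dart of the trail (the same dart if the trail stops). -/
noncomputable def nx (e : V × V) : V × V :=
  if h : ∃ w, Nxt E ω e w then (e.2, h.choose) else e

/-- The last dart of the trail which starts with the dart `e` (at most `T` steps). -/
noncomputable def key (T : ℕ) (e : V × V) : V × V := (nx E ω)^[T] e

/-- Colour of the dart `e` when the colours alternate along the trail in forward direction and the
last dart has the colour given by its bit. -/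
noncomputable def colD : ℕ → V × V → Bool
  | 0, e => (ω e.2).2 (E.slot e.2 e.1)
  | n + 1, e => if stp E ω e then (ω e.2).2 (E.slot e.2 e.1) else !(colD n (nx E ω e))

/-- The one of the two ends of the trail through `e` which decides the colours. -/
noncomputable def skey (T : ℕ) (e : V × V) : V × V :=
  if E.ord (key E ω T e) < E.ord (key E ω T e.swap) then key E ω T e else key E ω T e.swap

/-- The colour of the edge `e`. -/
noncomputable def col (T : ℕ) (e : V × V) : Bool :=
  if E.ord (key E ω T e) < E.ord (key E ω T e.swap) then colD E ω T e else colD E ω T e.swap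

/-- `z 0, …, z n` is a trail: alive edges, consecutive edges are partners. -/
def IsT (z : ℕ → V) (n : ℕ) : Prop :=
  (∀ t, t < n → Alv E ω (z t) (z (t + 1))) ∧
    ∀ t, 0 < t → t < n → Ptn E ω (z t) (z (t - 1)) (z (t + 1))

/-- All trails are paths with less than `T` edges. -/
def Tame (T : ℕ) : Prop :=
  ∀ z n, IsT E ω z n → n < T ∧ ∀ s t, s ≤ n → t ≤ n → z s = z t → s = t

/-- The trail in forward direction from the alive dart `e` is a path with less than `T` steps. -/
def Tidy (T : ℕ) (e : V × V) : Prop :=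
  Alv E ω e.1 e.2 ∧ ∃ k, k < T ∧ stp E ω ((nx E ω)^[k] e) ∧
    ∀ i j, i ≤ k → j ≤ k → ((nx E ω)^[i] e).2 = ((nx E ω)^[j] e).2 → i = j

/-- The graph of the edges of colour `c`. -/
def CG (T : ℕ) (c : Bool) : SimpleGraph V where
  Adj u v := Alv E ω u v ∧ col E ω T (u, v) = c ∧ col E ω T (v, u) = c
  symm := ⟨fun _ _ h => ⟨⟨h.1.1.symm, h.1.2.2, h.1.2.1⟩, h.2.2, h.2.1⟩⟩
  loopless := ⟨fun _ h => h.1.1.ne rfl⟩

/-- The vertex `y` is on the trail through the alive edge `e`. -/
def OnSeg (e : V × V) (y : V) : Prop :=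
  ∃ z n t s, IsT E ω z n ∧ t < n ∧ s ≤ n ∧ z s = y ∧
    ((z t, z (t + 1)) = e ∨ (z (t + 1), z t) = e)

/-! ### Bad events -/

/-- A long trail (the path `z 0, …, z T`): partners at every inner vertex and no inner vertex kills
the next edge. -/
def Ev2 (z : ℕ → V) (T : ℕ) : Prop :=
  ∀ t, 0 < t → t < T → Ptn E ω (z t) (z (t - 1)) (z (t + 1)) ∧ ¬ Kil E ω (z t) (z (t + 1))

/-- A closed trail (the cycle `z 0, …, z m = z 0`): partners at every vertex except `z 0`. -/
def Ev3 (z : ℕ → V) (m : ℕ) : Prop :=
  ∀ t, 0 < t → t < m → Ptn E ω (z t) (z (t - 1)) (z (t + 1))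

/-- The pattern of colours. -/
def pat (κ : Bool × Bool) (r t : ℕ) : Bool :=
  if t = 0 then κ.1 else if t = r then κ.2 else false

/-- The edge `t` of the cyclic sequence `z` of `n + 1` vertices: from `z (t - 1)` to `z t`. -/
def edg {n : ℕ} (z : Fin (n + 1) → V) (t : ℕ) : V × V := (cyc z (t + n), cyc z t)

/-- The main bad event. `z` is a cycle with `n + 1` vertices; the vertices `0, …, r - 1` and `y` are
the turning points, at all other vertices the two edges of the cycle are partners; the edges
`0, …, r` are on distinct tidy trails and have the colours `c xor pat`. -/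
def BEv (T ℓ : ℕ) {n : ℕ} (z : Fin (n + 1) → V) (r y : ℕ) (κ : Bool × Bool) : Prop :=
  1 ≤ r ∧ r ≤ ℓ ∧ r ≤ y ∧ y ≤ n ∧ IsC E.H (cyc z) (n + 1) ∧
  (∀ t, t ≤ n → (Ptn E ω (cyc z t) (cyc z (t + n)) (cyc z (t + 1)) ↔ ¬ (t < r ∨ t = y))) ∧
  (∀ t, t ≤ r → Tidy E ω T (edg z t) ∧ Tidy E ω T (edg z t).swap) ∧
  (∀ s t, s ≤ r → t ≤ r → skey E ω T (edg z s) = skey E ω T (edg z t) → s = t) ∧
  ∃ c : Bool, ∀ t, t ≤ r → col E ω T (edg z t) = xor c (pat κ r t)

/-- The vertices on which the event `BEv` depends: all vertices within distance one of the cycle and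
of the trails through its first edges. -/
def Supp (T : ℕ) {n : ℕ} (z : Fin (n + 1) → V) (r : ℕ) : Set V :=
  {x | ∃ y, (x = y ∨ E.H.Adj x y) ∧
    ((∃ t, y = cyc z t) ∨ ∃ t, t ≤ r ∧ ∃ i, i ≤ T ∧
      (y = ((nx E ω)^[i] (edg z t)).2 ∨ y = ((nx E ω)^[i] (edg z t).swap).2))}

end process

end Pool.Agent.LAG
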