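import Mathlib
import Pool.Agent.Helper76_LAG.Defs

/-!
# LAG: exact statements of the modules

Written proofs: `/team-store/PLAN_LAG.md`.
-/

set_option autoImplicit false

namespace Pool.Agent.LAG

open SimpleGraph

/-! ### Local lemma -/

/-- ALLL: the adaptive local lemma. The bad event `B i` has a support `D i ω` which depends on `ω`
(stopping property). -/
def AlllStmt : Prop := ∀ (I α ι : Type) [Fintype I] [DecidableEq I] [Fintype α] [Nonempty α]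
    [Fintype ι] (B : ι → (I → α) → Prop) (D : ι → (I → α) → Finset I) (K : ℕ), 2 ≤ K →
    (∀ i ω ω', B i ω → (∀ v ∈ D i ω, ω v = ω' v) → B i ω' ∧ D i ω' = D i ω) →
    (∀ i ω, B i ω → (D i ω).Nonempty ∧ (D i ω).card ≤ K) →
    (∀ v, 4 * K * ∑ i, Nat.card {ω : I → α // B i ω ∧ v ∈ D i ω} ≤ Nat.card (I → α)) →
    ∃ ω, ∀ i, ¬ B i ω

/-- HIT: choice of one of `N1` (kind `true`) or `N2` (kind `false`) options for each `i` without
conflict. -/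
def HitStmt : Prop := ∀ (I : Type) [Fintype I] (N1 N2 c1 c2 : ℕ) (kind : I → Bool)
    (R : I → ℕ → I → ℕ → Prop), 1 ≤ N1 → 1 ≤ N2 → 16 * (c1 * N2 + c2 * N1) ≤ N1 * N2 →
    (∀ i a j b, R i a j b → R j b i a) →
    (∀ i a, a < (if kind i then N1 else N2) →
      {p : I × ℕ | kind p.1 = true ∧ p.2 < N1 ∧ R i a p.1 p.2}.ncard ≤ c1 ∧
      {p : I × ℕ | kind p.1 = false ∧ p.2 < N2 ∧ R i a p.1 p.2}.ncard ≤ c2) →
    ∃ f : I → ℕ, (∀ i, f i < (if kind i then N1 else N2)) ∧ ∀ i j, i ≠ j → ¬ R i (f i) j (f j)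

/-- PRD: product formula for independent constraints at distinct vertices. -/
def PrdStmt : Prop := ∀ (V α : Type) [Fintype V] [Fintype α] (S : Finset V) (P : V → α → Prop),
    Nat.card {ω : V → α // ∀ v ∈ S, P v (ω v)} * Nat.card α ^ S.card =
      (∏ v ∈ S, Nat.card {a : α // P v a}) * Nat.card (V → α)

/-- LIFT: an event of one factor. -/
def LiftStmt : Prop := ∀ (Q V α : Type) [Fintype Q] [Fintype V] [Fintype α] (q : Q)
    (P : (V → α) → Prop),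
    Nat.card {ω : Q × V → α // P (fun x => ω (q, x))} * Nat.card (V → α) =
      Nat.card {ω : V → α // P ω} * Nat.card (Q × V → α)

/-! ### Paths and cycles in graphs of large girth -/

/-- UNIQ: uniqueness of short paths. -/
def UniqStmt : Prop := ∀ (V : Type) (G : SimpleGraph V) (g : ℕ), Big G g →
    ∀ (u v : V) (p q : G.Walk u v), p.IsPath → q.IsPath → p.length + q.length ≤ g → p = q

/-- UNIQ, version with sequences. -/
def UniqSStmt : Prop := ∀ (V : Type) (G : SimpleGraph V) (g : ℕ), Big G g →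
    ∀ (z z' : ℕ → V) (n n' : ℕ), IsP G z n → IsP G z' n' → z 0 = z' 0 → z n = z' n' →
    n + n' ≤ g → n = n' ∧ ∀ t, t ≤ n → z t = z' t

/-- UNIQ: an `IsC` is a cycle. -/
def CycLenStmt : Prop := ∀ (V : Type) (G : SimpleGraph V) (g : ℕ), Big G g →
    ∀ (z : ℕ → V) (m : ℕ), IsC G z m → g < m

/-- ZONE: a path leaves the neighbourhood of a separated set. -/
def ZoneStmt : Prop := ∀ (V : Type) (G : SimpleGraph V) (ρ : ℕ) (X : Set V), Big G (4 * ρ + 2) →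
    (∀ x ∈ X, ∀ y ∈ X, x ≠ y → ¬ near G (4 * ρ + 2) x y) →
    ∀ z : ℕ → V, IsP G z (2 * ρ + 2) → (∃ x ∈ X, near G ρ (z 0) x) →
    ¬ ∃ x ∈ X, near G ρ (z (2 * ρ + 2)) x

/-- AVC: at least half of the vertices of a cycle are far from a separated set. -/
def AvcStmt : Prop := ∀ (V : Type) (G : SimpleGraph V) (ρ : ℕ) (X : Set V), Big G (4 * ρ + 2) →
    (∀ x ∈ X, ∀ y ∈ X, x ≠ y → ¬ near G (4 * ρ + 2) x y) →
    ∀ (z : ℕ → V) (m : ℕ), IsC G z m →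
    m ≤ 2 * {t : ℕ | t < m ∧ ¬ ∃ x ∈ X, near G ρ (z t) x}.ncard

/-- AVP: about half of the vertices of a path are far from a separated set. -/
def AvpStmt : Prop := ∀ (V : Type) (G : SimpleGraph V) (ρ : ℕ) (X : Set V), Big G (4 * ρ + 2) →
    (∀ x ∈ X, ∀ y ∈ X, x ≠ y → ¬ near G (4 * ρ + 2) x y) →
    ∀ (z : ℕ → V) (n : ℕ), IsP G z n →
    n ≤ 2 * {t : ℕ | 0 < t ∧ t ≤ n ∧ ¬ ∃ x ∈ X, near G ρ (z t) x}.ncard + (2 * ρ + 2)

/-- BALL: size of balls. -/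
def BallStmt : Prop := ∀ (V : Type) [Fintype V] (G : SimpleGraph V) (Δ : ℕ),
    (∀ v, (G.neighborSet v).ncard ≤ Δ) → ∀ (r : ℕ) (y : V),
    Nat.card {x : V // near G r x y} ≤ (Δ + 1) ^ r

/-- CNTP: number of paths with `n` edges and with given vertex number `p`. -/
def CntPStmt : Prop := ∀ (V : Type) [Fintype V] (E : Env V) (n p : ℕ) (y : V), p ≤ n →
    9 * Nat.card {z : Fin (n + 1) → V // IsP E.H (cyc z) n ∧ cyc z p = y} ≤ 16 * 3 ^ n

/-- CNTC: number of cycles with `n + 1` vertices and with given vertex number `p`. -/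
def CntCStmt : Prop := ∀ (V : Type) [Fintype V] (G : SimpleGraph V) (h : ℕ) (E : Env V),
    Big G (2 * h) → E.H ≤ G → ∀ (n p : ℕ) (y : V), p ≤ n →
    3 ^ (h + 1) * Nat.card {z : Fin (n + 1) → V // IsC E.H (cyc z) (n + 1) ∧ cyc z p = y}
      ≤ 4 * 3 ^ (n + 1)

/-! ### The process, deterministic part -/

/-- SLOT: existence of the slots. -/
def SlotStmt : Prop := ∀ (V : Type) [Fintype V] (H : SimpleGraph V) (al : V → Prop),
    (∀ v, (H.neighborSet v).ncard ≤ 4) → ∃ E : Env V, E.H = H ∧ E.al = al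

/-- TAM -/
def TamStmt : Prop := ∀ (V : Type) (L T : ℕ) (E : Env V) (ω : V → St L), 1 ≤ T →
    (∀ z, IsP E.H z T → ¬ Ev2 E ω z T) →
    (∀ z m, m ≤ T → IsC E.H z m → ¬ Ev3 E ω z m) → Tame E ω T

/-- SEGA -/
def SegaStmt : Prop := ∀ (V : Type) (L T : ℕ) (E : Env V) (ω : V → St L), Tame E ω T →
    (∀ u v, Alv E ω u v → Tidy E ω T (u, v)) ∧
    (∀ u v w, Alv E ω u v → Alv E ω v w → Ptn E ω v u w →
      nx E ω (u, v) = (v, w) ∧ skey E ω T (u, v) = skey E ω T (v, w)) ∧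
    (∀ u v, Alv E ω u v → skey E ω T (u, v) = skey E ω T (v, u)) ∧
    (∀ u v, Alv E ω u v → col E ω T (u, v) = col E ω T (v, u)) ∧
    (∀ u v w, Alv E ω u v → Alv E ω v w → Ptn E ω v u w →
      col E ω T (u, v) ≠ col E ω T (v, w)) ∧
    (∀ z n, IsT E ω z n → ∀ s t, s < n → t < n →
      skey E ω T (z s, z (s + 1)) = skey E ω T (z t, z (t + 1)))

/-- SEGB -/
def SegbStmt : Prop := ∀ (V : Type) (L T : ℕ) (E : Env V) (ω : V → St L), Tame E ω T →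
    (∀ u v w, Alv E ω u v → Alv E ω v w → u ≠ w →
      skey E ω T (u, v) = skey E ω T (v, w) → Ptn E ω v u w) ∧
    (∀ e y, Alv E ω e.1 e.2 → OnSeg E ω e y → ∀ u, (u = e.1 ∨ u = e.2) → y ≠ u →
      ∃ z n, 1 ≤ n ∧ IsT E ω z n ∧ z 0 = u ∧ z n = y ∧
        skey E ω T (z 0, z 1) = skey E ω T e) ∧
    (∀ e e' y, Alv E ω e.1 e.2 → Alv E ω e'.1 e'.2 → skey E ω T e = skey E ω T e' →
      OnSeg E ω e y → OnSeg E ω e' y)

/-- DEG -/
def DegStmt : Prop := ∀ (V : Type) [Fintype V] (L T : ℕ) (E : Env V) (ω : V → St L),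
    Tame E ω T → ∀ c v, ((CG E ω T c).neighborSet v).ncard ≤ 2

/-- The edges of a configuration: first the last edge of `v`, then the edges of `p`, then the first
edge of `w`. -/
def cfe {V : Type} (r b : ℕ) (p w v : ℕ → V) (t : ℕ) : V × V :=
  if t = 0 then (v (b - 1), v b) else if t = r then (w 0, w 1) else (p (t - 1), p t)

/-- A cycle which consists of the path `p 0, …, p (r - 1)` of edges of colour `c`, of the trail `w`
with `a` edges from `p (r - 1)` to `w a` and of the trail `v` with `b` edges from `v 0 = w a` to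
`v b = p 0`. -/
structure Cfg {V : Type} {L : ℕ} (E : Env V) (ω : V → St L) (T ℓ : ℕ) (c : Bool)
    (r a b : ℕ) (p w v : ℕ → V) : Prop where
  hr : 1 ≤ r
  hrl : r ≤ ℓ
  ha : 1 ≤ a
  hb : 1 ≤ b
  h3 : 4 ≤ r + a + b
  hp : ∀ t, t + 1 < r → (CG E ω T c).Adj (p t) (p (t + 1))
  hw : IsT E ω w a
  hv : IsT E ω v b
  hw0 : w 0 = p (r - 1)
  hv0 : v 0 = w a
  hvb : v b = p 0
  hpp : ∀ s t, s < r → t < r → p s = p t → s = t
  hpw : ∀ t i, t < r → 1 ≤ i → i ≤ a → p t ≠ w i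
  hpv : ∀ t i, t < r → 1 ≤ i → i < b → p t ≠ v i
  hwv : ∀ i j, 1 ≤ i → i ≤ a → 1 ≤ j → j < b → w i ≠ v j
  hsk : ∀ s t, s ≤ r → t ≤ r → skey E ω T (cfe r b p w v s) = skey E ω T (cfe r b p w v t) → s = t

/-- DEDA: a short monochromatic cycle gives a configuration. -/
def DedAStmt : Prop := ∀ (V : Type) (L T ℓ : ℕ) (E : Env V) (ω : V → St L), Tame E ω T →
    ∀ (c : Bool) (x : ℕ → V) (m : ℕ), IsC (CG E ω T c) x m → m ≤ ℓ →
    ∃ r a b p w v, Cfg E ω T ℓ c r a b p w v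

/-- DEDB: a configuration gives a bad event. -/
def DedBStmt : Prop := ∀ (V : Type) (L T ℓ : ℕ) (E : Env V) (ω : V → St L), Tame E ω T →
    ∀ (c : Bool) (r a b : ℕ) (p w v : ℕ → V), Cfg E ω T ℓ c r a b p w v →
    ∃ (n : ℕ) (z : Fin (n + 1) → V) (y : ℕ) (κ : Bool × Bool), n < 2 * T + ℓ ∧
      BEv E ω T ℓ z r y κ

/-- DED: no bad event implies no short monochromatic cycle. -/
def DedStmt : Prop := ∀ (V : Type) (L T ℓ : ℕ) (E : Env V) (ω : V → St L), Tame E ω T →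
    (∀ (n : ℕ) (z : Fin (n + 1) → V) (r y : ℕ) (κ : Bool × Bool), n < 2 * T + ℓ →
      ¬ BEv E ω T ℓ z r y κ) →
    ∀ c, Big (CG E ω T c) ℓ

/-- STOP: the support of the main event. -/
def StopStmt : Prop := ∀ (V : Type) (L T ℓ : ℕ) (E : Env V) (ω ω' : V → St L) (n : ℕ)
    (z : Fin (n + 1) → V) (r y : ℕ) (κ : Bool × Bool), BEv E ω T ℓ z r y κ →
    (∀ v ∈ Supp E ω T z r, ω v = ω' v) →
    BEv E ω' T ℓ z r y κ ∧ Supp E ω' T z r = Supp E ω T z r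

/-- CARD: size of the support. -/
def CardStmt : Prop := ∀ (V : Type) [Fintype V] (L T : ℕ) (E : Env V) (ω : V → St L) (n : ℕ)
    (z : Fin (n + 1) → V) (r : ℕ),
    (Supp E ω T z r).ncard ≤ 5 * ((n + 1) + 2 * (r + 1) * (T + 1))

/-- The path `w` starts at a vertex of the cycle `z` and has no other vertex on it. -/
def IsW {V : Type} (E : Env V) {n k : ℕ} (z : Fin (n + 1) → V) (w : Fin (k + 1) → V) : Prop :=
  IsP E.H (cyc w) k ∧ (∃ p, p ≤ n ∧ cyc w 0 = cyc z p) ∧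
    ∀ i, 1 ≤ i → i ≤ k → ∀ p, cyc w i ≠ cyc z p

/-- RCH: every vertex of the support is reached by a trail from the cycle. -/
def RchStmt : Prop := ∀ (V : Type) (L T ℓ : ℕ) (E : Env V) (ω : V → St L) (n : ℕ)
    (z : Fin (n + 1) → V) (r y : ℕ) (κ : Bool × Bool), BEv E ω T ℓ z r y κ →
    ∀ x ∈ Supp E ω T z r, ∃ x', (x = x' ∨ E.H.Adj x x') ∧
      ∃ k, k ≤ T ∧ ∃ w : Fin (k + 1) → V, IsW E z w ∧ cyc w k = x' ∧ Ev3 E ω (cyc w) k

/-! ### The process, probabilities -/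

/-- TAU: probability of the conditions for the pairings. -/
def TauStmt : Prop := ∀ (V : Type) [Fintype V] (L : ℕ) (E : Env V) (n k : ℕ)
    (z : Fin (n + 1) → V) (w : Fin (k + 1) → V) (r y : ℕ), IsW E z w →
    IsC E.H (cyc z) (n + 1) → r ≤ y → y ≤ n →
    3 ^ (n + 1) * 3 ^ (k - 1) *
      Nat.card {ω : V → St L //
        (∀ t, t ≤ n → (Ptn E ω (cyc z t) (cyc z (t + n)) (cyc z (t + 1)) ↔ ¬ (t < r ∨ t = y))) ∧
        Ev3 E ω (cyc w) k}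
      ≤ 2 ^ (r + 1) * Nat.card (V → St L)

/-- BIT: the bits are independent of the rest of the state. -/
def BitStmt : Prop := ∀ (V : Type) [Fintype V] (L T ℓ : ℕ) (E : Env V) (n : ℕ)
    (z : Fin (n + 1) → V) (r y : ℕ) (κ : Bool × Bool) (P : (V → Fin 3 × Fin L) → Prop),
    2 ^ r * Nat.card {ω : V → St L // BEv E ω T ℓ z r y κ ∧ P (fun v => (ω v).1)}
      ≤ Nat.card {ω : V → St L // P (fun v => (ω v).1)}

/-- PRB: probability of the main event together with a trail `w`. -/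
def PrbStmt : Prop := ∀ (V : Type) [Fintype V] (L T ℓ : ℕ) (E : Env V) (n k : ℕ)
    (z : Fin (n + 1) → V) (w : Fin (k + 1) → V) (r y : ℕ) (κ : Bool × Bool), IsW E z w →
    3 ^ (n + 1) * 3 ^ (k - 1) *
      Nat.card {ω : V → St L // BEv E ω T ℓ z r y κ ∧ Ev3 E ω (cyc w) k}
      ≤ 2 * Nat.card (V → St L)

/-- The index type of the main events. -/
abbrev BIdx (V : Type) (N : ℕ) : Type :=
  (n : Fin N) × ((Fin (n.1 + 1) → V) × Fin (n.1 + 1) × Fin (n.1 + 1) × (Bool × Bool))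

/-- SUMB -/
def SumBStmt : Prop := ∀ (V : Type) [Fintype V] (L T ℓ h : ℕ) (G : SimpleGraph V) (E : Env V),
    1 ≤ T → Big G (2 * h) → E.H ≤ G → ∀ x : V,
    3 ^ h * ∑ i : BIdx V (2 * T + ℓ), Nat.card {ω : V → St L //
        BEv E ω T ℓ i.2.1 i.2.2.1 i.2.2.2.1 i.2.2.2.2 ∧ x ∈ Supp E ω T i.2.1 i.2.2.1}
      ≤ 400 * ℓ * T * (2 * T + ℓ) ^ 3 * Nat.card (V → St L)

/-- SUM2 -/
def Sum2Stmt : Prop := ∀ (V : Type) [Fintype V] (L T a : ℕ) (E : Env V), 4 ≤ L →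
    (∀ z, IsP E.H z T → a ≤ {t : ℕ | 0 < t ∧ t < T ∧ E.al (z t)}.ncard) → ∀ x : V,
    L ^ a * ∑ z : Fin (T + 1) → V, Nat.card {ω : V → St L //
        IsP E.H (cyc z) T ∧ Ev2 E ω (cyc z) T ∧ ∃ t, 0 < t ∧ t < T ∧ cyc z t = x}
      ≤ 6 * T * (L - 1) ^ a * Nat.card (V → St L)

/-- SUM3 -/
def Sum3Stmt : Prop := ∀ (V : Type) [Fintype V] (L T h : ℕ) (G : SimpleGraph V) (E : Env V),
    Big G (2 * h) → E.H ≤ G → ∀ x : V,
    3 ^ h * ∑ i : (n : Fin T) × (Fin (n.1 + 1) → V), Nat.card {ω : V → St L //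
        IsC E.H (cyc i.2) (i.1.1 + 1) ∧ Ev3 E ω (cyc i.2) (i.1.1 + 1) ∧
          ∃ t, 0 < t ∧ t ≤ i.1.1 ∧ cyc i.2 t = x}
      ≤ 4 * T ^ 2 * Nat.card (V → St L)

/-- The bound for the size of the supports. -/
def KK (T ℓ : ℕ) : ℕ := 5 * ((2 * T + ℓ) + 2 * (ℓ + 1) * (T + 1))

/-- The numerical conditions. -/
def Num (Δ h ℓ T L : ℕ) : Prop :=
  4 ≤ L ∧ 86 ≤ T ∧ 1 ≤ ℓ ∧ 512 * KK T ℓ * (Δ + 2) ^ 21 ≤ L ^ 2 ∧
  96 * KK T ℓ * T * (L - 1) ^ ((T - 43) / 2) ≤ L ^ ((T - 43) / 2) ∧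
  6400 * KK T ℓ * ℓ * T * (2 * T + ℓ) ^ 3 ≤ 3 ^ h

/-- PAR -/
def ParStmt : Prop := ∀ Δ h : ℕ, 2 ^ 273 * (Δ + 2) ^ 122 ≤ 3 ^ h →
    Num Δ h (2 ^ 12 * (Δ + 2)) (2 ^ 45 * (Δ + 2) ^ 24) (2 ^ 36 * (Δ + 2) ^ 23)

/-- JNT: the local lemma for all graphs `(E q).H` together. -/
def JntStmt : Prop := ∀ (V : Type) [Fintype V] (Δ h ℓ T L : ℕ), Num Δ h ℓ T L →
    ∀ G : SimpleGraph V, Big G (2 * h) → (∀ v, (G.neighborSet v).ncard ≤ Δ) →
    ∀ (Q : Type) [Fintype Q], Fintype.card Q ≤ Δ → ∀ E : Q → Env V, (∀ q, (E q).H ≤ G) →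
    (∀ q z, IsP (E q).H z T →
      (T - 43) / 2 ≤ {t : ℕ | 0 < t ∧ t < T ∧ (E q).al (z t)}.ncard) →
    ∃ ω : Q → V → St L,
      (∀ q, Tame (E q) (ω q) T ∧
        ∀ (n : ℕ) (z : Fin (n + 1) → V) (r y : ℕ) (κ : Bool × Bool), n < 2 * T + ℓ →
          ¬ BEv (E q) (ω q) T ℓ z r y κ) ∧
      ∀ q x q' x', (q, x) ≠ (q', x') → near G 20 x x' →
        ¬ ((ω q x).1.2.val < 4 ∧ (ω q' x').1.2.val < 4)

/-- MAIN: all graphs `H q` of maximum degree four are split into two graphs of maximum degree two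
without short cycles, after removal of edges which are far apart. -/
def MainStmt : Prop := ∀ (V : Type) [Fintype V] (Δ h ℓ T L : ℕ), Num Δ h ℓ T L → 82 ≤ 2 * h →
    ∀ G : SimpleGraph V, Big G (2 * h) → (∀ v, (G.neighborSet v).ncard ≤ Δ) →
    ∀ (Q : Type) [Fintype Q], Fintype.card Q ≤ Δ → ∀ H : Q → SimpleGraph V, (∀ q, H q ≤ G) →
    (∀ q v, ((H q).neighborSet v).ncard ≤ 4) →
    ∀ U : Set V, (∀ u ∈ U, ∀ u' ∈ U, u ≠ u' → ¬ near G 82 u u') →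
    ∃ F : Q → Bool → SimpleGraph V, (∀ q c, F q c ≤ H q) ∧
      (∀ q, Disjoint (F q false) (F q true)) ∧
      (∀ q c v, ((F q c).neighborSet v).ncard ≤ 2) ∧ (∀ q c, Big (F q c) ℓ) ∧
      (∀ q u v q' u' v', (H q \ (F q false ⊔ F q true)).Adj u v →
        (H q' \ (F q' false ⊔ F q' true)).Adj u' v' → s(u, v) ≠ s(u', v') →
        ¬ near G 18 u u') ∧
      (∀ q u v, (H q \ (F q false ⊔ F q true)).Adj u v → ∀ x ∈ U, ¬ near G 19 u x)

/-! ### Decompositions -/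

/-- PET: Petersen's theorem for graphs of maximum degree at most `2 k`. -/
def PetStmt : Prop := ∀ (V : Type) [Fintype V] (G : SimpleGraph V) (k : ℕ),
    (∀ v, (G.neighborSet v).ncard ≤ 2 * k) →
    ∃ c : Sym2 V → ℕ, (∀ e ∈ G.edgeSet, c e < k) ∧
      ∀ v i, {e : Sym2 V | e ∈ G.edgeSet ∧ v ∈ e ∧ c e = i}.ncard ≤ 2

/-- BND: a set of vertices of degree `Δ` which contains no ball of radius `R` has at least `Δ` edges
to its boundary. -/
def BndStmt : Prop := ∀ (V : Type) [Fintype V] (G : SimpleGraph V) (Δ R : ℕ), 2 ≤ Δ →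
    Big G (4 * R + 6) → ∀ C S : Set V, C.Nonempty → (∀ v ∈ C, (G.neighborSet v).ncard = Δ) →
    (∀ v ∈ C, ∀ u, G.Adj v u → u ∈ C ∨ u ∈ S) → Disjoint C S →
    (∀ v, ∃ w, w ∉ C ∧ near G R v w) →
    Δ ≤ {e : V × V | e.1 ∈ C ∧ e.2 ∈ S ∧ G.Adj e.1 e.2}.ncard

/-- TUT: a matching which covers all vertices of degree `Δ` outside of `W`. -/
def TutStmt : Prop := ∀ (V : Type) [Fintype V] (G : SimpleGraph V) (Δ R : ℕ), 2 ≤ Δ →
    Big G (4 * R + 6) → (∀ v, (G.neighborSet v).ncard ≤ Δ) →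
    ∀ W : Set V, (∀ v, ∃ w ∈ W, near G R v w) →
    ∃ M : SimpleGraph V, M ≤ G ∧ (∀ v, (M.neighborSet v).ncard ≤ 1) ∧
      ∀ v, (G.neighborSet v).ncard = Δ → v ∉ W → (M.neighborSet v).ncard = 1

/-- MZ: the linear forest which is taken out first (empty if `Δ` is even). -/
def MzStmt : Prop := ∀ (V : Type) [Fintype V] (G : SimpleGraph V) (Δ : ℕ), Big G 342 →
    (∀ v, (G.neighborSet v).ncard ≤ Δ) →
    ∃ (M : SimpleGraph V) (U : Set V), M ≤ G ∧ M.IsAcyclic ∧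
      (∀ v, (M.neighborSet v).ncard ≤ 2) ∧ (∀ v, v ∉ U → (M.neighborSet v).ncard ≤ 1) ∧
      (∀ u ∈ U, ∀ u' ∈ U, u ≠ u' → ¬ near G 82 u u') ∧
      (∀ v, (G.neighborSet v).ncard ≤ 2 * (Δ / 2) + (M.neighborSet v).ncard) ∧
      (∀ a b, M.Reachable a b → near M 2 a b) ∧ ∀ a, {b | M.Reachable a b}.ncard ≤ 3

/-- CMP1: hitting all cycles of a graph of maximum degree two. -/
def Cmp1Stmt : Prop := ∀ (V : Type) [Fintype V] (F : SimpleGraph V) (S : Set (Sym2 V)),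
    (∀ v, (F.neighborSet v).ncard ≤ 2) →
    (∀ (v : V) (c : F.Walk v v), c.IsCycle → ∃ e ∈ S, e ∈ F.edgeSet ∧ ∃ u ∈ e, F.Reachable v u) →
    (F.deleteEdges S).IsAcyclic

/-- CMP2: adding few edges to a linear forest. -/
def Cmp2Stmt : Prop := ∀ (V : Type) [Fintype V] (F N : SimpleGraph V), F.IsAcyclic →
    (∀ v, (F.neighborSet v).ncard ≤ 2) → (∀ u v, N.Adj u v → (F.neighborSet u).ncard ≤ 1) →
    (∀ u v, N.Adj u v → ¬ F.Reachable u v) →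
    (∀ u v u' v', N.Adj u v → N.Adj u' v' → F.Reachable u u' → s(u, v) = s(u', v')) →
    (F ⊔ N).IsAcyclic ∧ ∀ v, ((F ⊔ N).neighborSet v).ncard ≤ 2

/-- HCY: a set of edges which hits all cycles of the graphs `A j`. -/
def HcyStmt : Prop := ∀ (V : Type) [Fintype V] (G M : SimpleGraph V) (k N1 N2 : ℕ)
    (kd : Fin k → Bool) (A : Fin k → SimpleGraph V) (X : Set V), Big G 18 →
    (∀ x ∈ X, ∀ y ∈ X, x ≠ y → ¬ near G 18 x y) → (∀ j, A j ≤ G) →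
    (∀ i j, i ≠ j → Disjoint (A i) (A j)) → (∀ j v, ((A j).neighborSet v).ncard ≤ 2) →
    (∀ j, Big (A j) (if kd j then 2 * N1 else 2 * N2)) →
    (∀ i j, kd i = true → kd j = true → i = j) → (∀ a, {b | M.Reachable a b}.ncard ≤ 3) →
    1 ≤ N1 → 1 ≤ N2 → 16 * (12 * N2 + 12 * k * N1) ≤ N1 * N2 →
    ∃ S : Set (Sym2 V), (∀ e ∈ S, ∃ j, e ∈ (A j).edgeSet) ∧
      (∀ j, ((A j).deleteEdges S).IsAcyclic) ∧
      (∀ e ∈ S, ∀ u ∈ e, ∀ x ∈ X, ¬ near G 3 u x) ∧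
      ∀ e ∈ S, ∀ e' ∈ S, ∀ u ∈ e, ∀ u' ∈ e', M.Reachable u u' → e = e'

/-- FIN: the final decomposition. -/
def FinStmt : Prop := ∀ (V : Type) [Fintype V] (G : SimpleGraph V) (Δ h : ℕ),
    (∀ v, (G.neighborSet v).ncard ≤ Δ) → 2 ^ 273 * (Δ + 2) ^ 122 ≤ 3 ^ h → Big G (2 * h) →
    ∃ F : Fin (Δ / 2 + 1) → SimpleGraph V,
      (∀ i, (F i).IsAcyclic ∧ ∀ v, ((F i).neighborSet v).ncard ≤ 2) ∧ (⨆ i, F i) = G

end Pool.Agent.LAG
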