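import Mathlib
import Pool.Agent.Helper76_LAG.Defs

/-!
# LAG: elementary facts on `near` and `Big`
-/

set_option autoImplicit false

namespace Pool.Agent.LAG

open SimpleGraph

variable {V : Type} {G : SimpleGraph V}

lemma near_refl (r : ℕ) (a : V) : near G r a a := ⟨Walk.nil, by simp⟩

lemma near_symm {r : ℕ} {a b : V} (h : near G r a b) : near G r b a := by
  obtain ⟨p, hp⟩ := h
  exact ⟨p.reverse, by simpa using hp⟩

lemma near_mono {r s : ℕ} {a b : V} (hrs : r ≤ s) (h : near G r a b) : near G s a b := by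
  obtain ⟨p, hp⟩ := h
  exact ⟨p, hp.trans hrs⟩

lemma near_trans {r s : ℕ} {a b c : V} (h : near G r a b) (h' : near G s b c) :
    near G (r + s) a c := by
  obtain ⟨p, hp⟩ := h
  obtain ⟨q, hq⟩ := h'
  exact ⟨p.append q, by rw [Walk.length_append]; omega⟩

lemma near_adj {a b : V} (h : G.Adj a b) : near G 1 a b := ⟨h.toWalk, by simp⟩

lemma near_le {G' : SimpleGraph V} (hG : G' ≤ G) {r : ℕ} {a b : V} (h : near G' r a b) :
    near G r a b := by
  obtain ⟨p, hp⟩ := h
  exact ⟨p.mapLe hG, by simpa using hp⟩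

lemma Big.mono {g g' : ℕ} (h : Big G g) (hg : g' ≤ g) : Big G g' :=
  fun v c hc => lt_of_le_of_lt hg (h v c hc)

lemma Big.le {G' : SimpleGraph V} {g : ℕ} (h : Big G g) (hG : G' ≤ G) : Big G' g := by
  intro v c hc
  have := h v (c.mapLe hG) (hc.mapLe hG)
  simpa using this

/-- No triangles. -/
lemma Big.triangle {g : ℕ} (h : Big G g) (hg : 3 ≤ g) {a b c : V} (h1 : G.Adj a b)
    (h2 : G.Adj b c) (h3 : G.Adj c a) : False := by
  have hc : (Walk.cons h1 (Walk.cons h2 (Walk.cons h3 Walk.nil))).IsCycle := by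
    have hab := h1.ne
    have hbc := h2.ne
    have hca := h3.ne
    rw [Walk.isCycle_def, Walk.isTrail_def]
    refine ⟨?_, by simp, ?_⟩
    · simp only [Walk.edges_cons, Walk.edges_nil, List.nodup_cons, List.mem_cons,
        List.not_mem_nil, not_false_eq_true, List.nodup_nil, and_true, or_false, Sym2.eq_iff,
        not_or, not_and]
      tauto
    · simp only [Walk.support_cons, Walk.support_nil, List.tail_cons, List.nodup_cons,
        List.mem_cons, List.not_mem_nil, not_false_eq_true, List.nodup_nil, and_true, or_false,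
        not_or]
      tauto
  have := h _ _ hc
  simp at this
  omega

end Pool.Agent.LAG
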