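import Mathlib
import Pool.Agent.Helper76_LAG.Stmt
import Pool.Agent.Helper14_LA.Final

/-!
# LAG, module RES: the theorem in the form of the question
-/

set_option autoImplicit false

open SimpleGraph Pool.Agent.Helper14_LA

namespace Pool.Agent.LAG.Res

/-- The linear arboricity of `G`: the least `k` such that `G` is the union of `k` linear forests
(acyclic graphs all of whose degrees are at most two) on the vertex set of `G`. -/
noncomputable def la {V : Type} (G : SimpleGraph V) : ℕ :=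
  sInf {k : ℕ | ∃ F : Fin k → SimpleGraph V,
    (∀ i, (F i).IsAcyclic ∧ ∀ v, ((F i).neighborSet v).ncard ≤ 2) ∧ (⨆ i, F i) = G}

lemma ncard_eq_degree {V : Type} [Fintype V] (G : SimpleGraph V) [DecidableRel G.Adj] (v : V) :
    (G.neighborSet v).ncard = G.degree v := by
  rw [← card_neighborSet_eq_degree, ← Nat.card_eq_fintype_card, Nat.card_coe_set_eq]

lemma la_le {V : Type} {G : SimpleGraph V} {q : ℕ} (h : CoveredBy G q) : la G ≤ q :=
  Nat.sInf_le h

lemma la_mem {V : Type} {G : SimpleGraph V} {q : ℕ} (h : CoveredBy G q) : CoveredBy G (la G) :=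
  Nat.sInf_mem (s := {k : ℕ | CoveredBy G k}) ⟨q, h⟩

/-- numerical: from the logarithmic to the exponential condition -/
lemma exists_h (q : ℕ) (hq : 2 ≤ q) : ∃ h : ℕ, 2 ^ 273 * q ^ 122 ≤ 3 ^ h ∧
    (2 * h : ℝ) < 800 * Real.log q := by
  have hq' : (2 : ℝ) ≤ q := by exact_mod_cast hq
  have hq0 : (0 : ℝ) < q := by linarith
  have hl2 : (0.6931471803 : ℝ) < Real.log 2 := Real.log_two_gt_d9
  have hlq : Real.log 2 ≤ Real.log q := Real.log_le_log (by norm_num) hq'
  have hl3 : (1 : ℝ) ≤ Real.log 3 := by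
    rw [Real.le_log_iff_exp_le (by norm_num)]
    have := Real.exp_one_lt_d9
    linarith
  refine ⟨⌊399 * Real.log q⌋₊, ?_, ?_⟩
  · have h1 : 399 * Real.log q - 1 < (⌊399 * Real.log q⌋₊ : ℝ) := by
      have := Nat.lt_floor_add_one (399 * Real.log q)
      linarith
    have h2 : Real.log ((2 : ℝ) ^ 273 * (q : ℝ) ^ 122) ≤
        Real.log ((3 : ℝ) ^ ⌊399 * Real.log q⌋₊) := by
      rw [Real.log_mul (by positivity) (by positivity), Real.log_pow, Real.log_pow, Real.log_pow]
      push_cast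
      have h3 : (⌊399 * Real.log q⌋₊ : ℝ) * 1 ≤ (⌊399 * Real.log q⌋₊ : ℝ) * Real.log 3 :=
        mul_le_mul_of_nonneg_left hl3 (Nat.cast_nonneg _)
      linarith
    have h4 : (2 : ℝ) ^ 273 * (q : ℝ) ^ 122 ≤ (3 : ℝ) ^ ⌊399 * Real.log q⌋₊ :=
      (Real.log_le_log_iff (by positivity) (by positivity)).1 h2
    exact_mod_cast h4
  · have h1 : (⌊399 * Real.log q⌋₊ : ℝ) ≤ 399 * Real.log q := Nat.floor_le (by positivity)
    have : 0 < Real.log q := by linarith
    linarith

/-- all graphs -/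
theorem upper (hFin : FinStmt) (V : Type) [Fintype V] (G : SimpleGraph V) [DecidableRel G.Adj]
    (hg : ∀ (v : V) (c : G.Walk v v), c.IsCycle →
      800 * Real.log (G.maxDegree + 2) ≤ c.length) :
    la G ≤ (G.maxDegree + 2) / 2 := by
  obtain ⟨h, h1, h2⟩ := exists_h (G.maxDegree + 2) (by omega)
  have hb : Big G (2 * h) := by
    intro v c hc
    have h3 := hg v c hc
    push_cast at h2
    have h4 : ((2 * h : ℕ) : ℝ) < c.length := by push_cast; linarith
    exact_mod_cast h4
  obtain ⟨F, hF, hFG⟩ := hFin V G G.maxDegree h (fun v => by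
    rw [ncard_eq_degree]; exact G.degree_le_maxDegree v) h1 hb
  have : la G ≤ G.maxDegree / 2 + 1 := la_le ⟨F, hF, hFG⟩
  omega

/-- regular graphs -/
theorem regular (hFin : FinStmt) (V : Type) [Fintype V] [Nonempty V] (G : SimpleGraph V)
    [DecidableRel G.Adj] (r : ℕ) (hr : 0 < r) (hreg : G.IsRegularOfDegree r)
    (hg : ∀ (v : V) (c : G.Walk v v), c.IsCycle → 800 * Real.log (r + 2) ≤ c.length) :
    la G = (r + 2) / 2 := by
  have hmax : G.maxDegree = r := by
    obtain ⟨v, hv⟩ := G.exists_maximal_degree_vertex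
    rw [hv, hreg v]
  have hreg' : ∀ v, (G.neighborSet v).ncard = r := fun v => by
    rw [ncard_eq_degree, hreg v]
  obtain ⟨h, h1, h2⟩ := exists_h (r + 2) (by omega)
  have hb : Big G (2 * h) := by
    intro v c hc
    have h3 := hg v c hc
    push_cast at h2
    have h4 : ((2 * h : ℕ) : ℝ) < c.length := by push_cast; linarith
    exact_mod_cast h4
  obtain ⟨F, hF, hFG⟩ := hFin V G r h (fun v => by rw [hreg']) h1 hb
  have hcov : CoveredBy G (r / 2 + 1) := ⟨F, hF, hFG⟩
  have h5 := lower_bound G hr hreg' (la_mem hcov)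
  have h6 := la_le hcov
  omega

end Pool.Agent.LAG.Res
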