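import Mathlib
import Pool.Agent.Helper76_LAG.Stmt
import Pool.Agent.Helper76_LAG.Near

/-!
# LAG, module FIN: the final decomposition
-/

set_option autoImplicit false

namespace Pool.Agent.LAG.Fin

open SimpleGraph Pool.Agent.LAG

variable {V : Type}

/-- degree of a difference of graphs -/
lemma degree_sdiff [Fintype V] (G M : SimpleGraph V) (hM : M ≤ G) (v : V) (d : ℕ)
    (h : (G.neighborSet v).ncard ≤ d + (M.neighborSet v).ncard) :
    ((G \ M).neighborSet v).ncard ≤ d := by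
  have e : (G \ M).neighborSet v = G.neighborSet v \ M.neighborSet v := by
    ext u; simp
  have hs : M.neighborSet v ⊆ G.neighborSet v := fun u hu => hM hu
  rw [e, Set.ncard_sdiff hs (Set.toFinite _)]
  omega

/-- The graph of the edges of `G` with colours in `C`. -/
def colg (G : SimpleGraph V) (c : Sym2 V → ℕ) (C : ℕ → Prop) : SimpleGraph V where
  Adj u v := G.Adj u v ∧ C (c s(u, v))
  symm := ⟨fun u v h => ⟨h.1.symm, by rw [Sym2.eq_swap]; exact h.2⟩⟩
  loopless := ⟨fun _ h => h.1.ne rfl⟩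

lemma colg_le (G : SimpleGraph V) (c : Sym2 V → ℕ) (C : ℕ → Prop) : colg G c C ≤ G :=
  fun _ _ h => h.1

lemma colg_deg [Fintype V] (G : SimpleGraph V) (c : Sym2 V → ℕ)
    (hc : ∀ v i, {e : Sym2 V | e ∈ G.edgeSet ∧ v ∈ e ∧ c e = i}.ncard ≤ 2) (i : ℕ) (v : V) :
    ((colg G c (fun j => j = i)).neighborSet v).ncard ≤ 2 := by
  refine le_trans ?_ (hc v i)
  refine Set.ncard_le_ncard_of_injOn (fun u => s(v, u)) ?_ ?_ (Set.toFinite _)
  · intro u hu
    exact ⟨hu.1, Sym2.mem_mk_left _ _, hu.2⟩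
  · intro u _ u' _ h
    exact Sym2.congr_right.1 h

lemma colg_deg2 [Fintype V] (G : SimpleGraph V) (c : Sym2 V → ℕ)
    (hc : ∀ v i, {e : Sym2 V | e ∈ G.edgeSet ∧ v ∈ e ∧ c e = i}.ncard ≤ 2) (q : ℕ) (v : V) :
    ((colg G c (fun j => j / 2 = q)).neighborSet v).ncard ≤ 4 := by
  have h1 : (colg G c (fun j => j / 2 = q)).neighborSet v ⊆
      (colg G c (fun j => j = 2 * q)).neighborSet v ∪
        (colg G c (fun j => j = 2 * q + 1)).neighborSet v := by
    intro u hu
    have h2 : c s(v, u) / 2 = q := hu.2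
    have h3 : c s(v, u) = 2 * q ∨ c s(v, u) = 2 * q + 1 := by omega
    rcases h3 with h3 | h3
    · exact Or.inl ⟨hu.1, h3⟩
    · exact Or.inr ⟨hu.1, h3⟩
  have h2 := colg_deg G c hc (2 * q) v
  have h3 := colg_deg G c hc (2 * q + 1) v
  calc _ ≤ _ := Set.ncard_le_ncard h1 (Set.toFinite _)
    _ ≤ _ := Set.ncard_union_le _ _
    _ ≤ 4 := by omega

lemma deleteEdges_deg [Fintype V] (F : SimpleGraph V) (S : Set (Sym2 V))
    (h : ∀ v, (F.neighborSet v).ncard ≤ 2) (v : V) :
    ((F.deleteEdges S).neighborSet v).ncard ≤ 2 :=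
  le_trans (Set.ncard_le_ncard (fun _ hu => (F.deleteEdges_le S) hu) (Set.toFinite _)) (h v)

lemma h_large {Δ h : ℕ} (hh : 2 ^ 273 * (Δ + 2) ^ 122 ≤ 3 ^ h) : 202 ≤ h := by
  by_contra hlt
  have h1 : h ≤ 201 := by omega
  have h2 : (3 : ℕ) ^ h ≤ 3 ^ 201 := Nat.pow_le_pow_right (by norm_num) h1
  have h3 : (2 : ℕ) ^ 122 ≤ (Δ + 2) ^ 122 := Nat.pow_le_pow_left (by omega) 122
  have h4 : (3 : ℕ) ^ 201 < 2 ^ 273 * 2 ^ 122 := by
    have e : (2 : ℕ) ^ 273 = 2 ^ 200 * 2 ^ 73 := by rw [← pow_add]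
    rw [e]; norm_num
  have h5 : 2 ^ 273 * 2 ^ 122 ≤ 2 ^ 273 * (Δ + 2) ^ 122 := Nat.mul_le_mul_left _ h3
  omega

lemma num_cond {Δ h : ℕ} (hh : 202 ≤ h) :
    16 * (12 * (2 ^ 11 * (Δ + 2)) + 12 * (Δ / 2) * h) ≤ h * (2 ^ 11 * (Δ + 2)) := by
  have h1 : 12 * (Δ / 2) * h * 16 ≤ 96 * (Δ + 2) * h := by
    have : 12 * (Δ / 2) * 16 ≤ 96 * (Δ + 2) := by omega
    calc 12 * (Δ / 2) * h * 16 = (12 * (Δ / 2) * 16) * h := by ring
      _ ≤ _ := Nat.mul_le_mul_right _ this
  have h2 : 202 * (Δ + 2) ≤ h * (Δ + 2) := Nat.mul_le_mul_right _ hh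
  nlinarith

/-- FIN -/
theorem fin_main (hPar : ParStmt) (hMain : MainStmt) (hPet : PetStmt) (hMz : MzStmt)
    (hCmp2 : Cmp2Stmt) (hHcy : HcyStmt) : FinStmt := by
  classical
  intro V _ G Δ h hdeg hnum hbig
  have hh := h_large hnum
  have hb342 : Big G 342 := hbig.mono (by omega)
  obtain ⟨M, U, hMG, hMac, hM2, hMU, hUU, hGM, hMr, hM3⟩ := hMz V G Δ hb342 hdeg
  -- the rest of the graph
  let G1 : SimpleGraph V := G \ M
  have hG1 : G1 ≤ G := sdiff_le
  have hG1deg : ∀ v, (G1.neighborSet v).ncard ≤ 2 * (Δ / 2) := fun v =>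
    degree_sdiff G M hMG v _ (hGM v)
  obtain ⟨c, hck, hc2⟩ := hPet V G1 (Δ / 2) hG1deg
  let k := Δ / 2
  let H : Fin (k / 2) → SimpleGraph V := fun q => colg G1 c (fun j => j / 2 = q.1)
  have hHG : ∀ q, H q ≤ G := fun q => (colg_le _ _ _).trans hG1
  have hH4 : ∀ q v, ((H q).neighborSet v).ncard ≤ 4 := fun q v => colg_deg2 G1 c hc2 q.1 v
  obtain ⟨F, hFH, hFd, hF2, hFb, hDD, hDU⟩ := hMain V Δ h (2 ^ 12 * (Δ + 2))
    (2 ^ 45 * (Δ + 2) ^ 24) (2 ^ 36 * (Δ + 2) ^ 23) (hPar Δ h hnum) (by omega) G hbig hdeg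
    (Fin (k / 2)) (by rw [Fintype.card_fin]; omega) H hHG hH4 U hUU
  -- dead edges
  let D : SimpleGraph V := ⨆ q, (H q \ (F q false ⊔ F q true))
  have hDadj : ∀ u v, D.Adj u v ↔ ∃ q, (H q \ (F q false ⊔ F q true)).Adj u v := by
    intro u v; simp only [D, SimpleGraph.iSup_adj]
  have hDG1 : D ≤ G1 := iSup_le fun q => sdiff_le.trans (colg_le _ _ _)
  -- centres
  let X : Set V := U ∪ {x | ∃ e ∈ D.edgeSet, x = e.out.1}
  have hDe : ∀ e ∈ D.edgeSet, ∃ y, e = s(e.out.1, y) ∧ D.Adj e.out.1 y := by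
    intro e he
    have h1 : e.out.1 ∈ e := Sym2.out_fst_mem e
    obtain ⟨y, hy⟩ := h1
    refine ⟨y, hy, ?_⟩
    rw [hy] at he
    exact he
  have hXX : ∀ x ∈ X, ∀ y ∈ X, x ≠ y → ¬ near G 18 x y := by
    have key : ∀ x ∈ U, ∀ y, (∃ e ∈ D.edgeSet, y = e.out.1) → ¬ near G 18 x y := by
      rintro x hx y ⟨e, he, rfl⟩ hn
      obtain ⟨y', hy', hadj⟩ := hDe e he
      obtain ⟨q, hq⟩ := (hDadj _ _).1 hadj
      exact hDU q _ _ hq x hx (near_mono (by norm_num) (near_symm hn))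
    rintro x (hx | hx) y (hy | hy) hxy hn
    · exact hUU x hx y hy hxy (near_mono (by norm_num) hn)
    · exact key x hx y hy hn
    · exact key y hy x hx (near_symm hn)
    · obtain ⟨e, he, rfl⟩ := hx
      obtain ⟨e', he', rfl⟩ := hy
      obtain ⟨a, ha, ha2⟩ := hDe e he
      obtain ⟨a', ha', ha2'⟩ := hDe e' he'
      obtain ⟨q, hq⟩ := (hDadj _ _).1 ha2
      obtain ⟨q', hq'⟩ := (hDadj _ _).1 ha2'
      refine hDD q _ _ q' _ _ hq hq' ?_ hn
      rw [← ha, ← ha']
      rintro rfl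
      exact hxy rfl
  -- the classes
  let A : Fin k → SimpleGraph V := fun j =>
    if hj : j.1 / 2 < k / 2 then F ⟨j.1 / 2, hj⟩ (decide (j.1 % 2 = 1))
    else colg G1 c (fun i => i = j.1)
  let kd : Fin k → Bool := fun j => !decide (j.1 / 2 < k / 2)
  have hA1 : ∀ (j : Fin k) (hj : j.1 / 2 < k / 2),
      A j = F ⟨j.1 / 2, hj⟩ (decide (j.1 % 2 = 1)) := fun j hj => dif_pos hj
  have hA2 : ∀ (j : Fin k), ¬ j.1 / 2 < k / 2 → A j = colg G1 c (fun i => i = j.1) :=
    fun j hj => dif_neg hj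
  have hAcol : ∀ j u v, (A j).Adj u v → G1.Adj u v ∧ c s(u, v) / 2 = j.1 / 2 := by
    intro j u v huv
    by_cases hj : j.1 / 2 < k / 2
    · rw [hA1 j hj] at huv
      have := hFH _ _ huv
      exact ⟨this.1, this.2⟩
    · rw [hA2 j hj] at huv
      refine ⟨huv.1, ?_⟩
      have : c s(u, v) = j.1 := huv.2
      rw [this]
  have hAG : ∀ j, A j ≤ G := fun j u v huv => hG1 (hAcol j u v huv).1
  have hAd : ∀ i j, i ≠ j → Disjoint (A i) (A j) := by
    intro i j hij
    rw [disjoint_iff_inf_le]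
    intro u v huv
    exfalso
    rw [SimpleGraph.inf_adj] at huv
    have h1 := (hAcol i u v huv.1).2
    have h2 := (hAcol j u v huv.2).2
    have h3 : i.1 / 2 = j.1 / 2 := by omega
    have hne : i.1 ≠ j.1 := fun e => hij (Fin.ext e)
    by_cases hi : i.1 / 2 < k / 2
    · have hj : j.1 / 2 < k / 2 := by omega
      rw [hA1 i hi, hA1 j hj] at huv
      have e : (⟨i.1 / 2, hi⟩ : Fin (k / 2)) = ⟨j.1 / 2, hj⟩ := by
        ext; exact h3
      rw [e] at huv
      have hd := hFd ⟨j.1 / 2, hj⟩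
      rw [disjoint_iff_inf_le] at hd
      rcases Nat.mod_two_eq_zero_or_one i.1 with hi2 | hi2 <;>
        rcases Nat.mod_two_eq_zero_or_one j.1 with hj2 | hj2
      · omega
      · have e1 : decide (i.1 % 2 = 1) = false := by simp [hi2]
        have e2 : decide (j.1 % 2 = 1) = true := by simp [hj2]
        rw [e1, e2] at huv
        exact hd (show (F _ false ⊓ F _ true).Adj u v from huv)
      · have e1 : decide (i.1 % 2 = 1) = true := by simp [hi2]
        have e2 : decide (j.1 % 2 = 1) = false := by simp [hj2]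
        rw [e1, e2] at huv
        exact hd (show (F _ false ⊓ F _ true).Adj u v from ⟨huv.2, huv.1⟩)
      · omega
    · have hi' := i.2
      have hj' := j.2
      omega
  have hA2' : ∀ j v, ((A j).neighborSet v).ncard ≤ 2 := by
    intro j v
    by_cases hj : j.1 / 2 < k / 2
    · rw [hA1 j hj]; exact hF2 _ _ _
    · rw [hA2 j hj]; exact colg_deg G1 c hc2 _ v
  have hAb : ∀ j, Big (A j) (if kd j then 2 * h else 2 * (2 ^ 11 * (Δ + 2))) := by
    intro j
    by_cases hj : j.1 / 2 < k / 2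
    · have : kd j = false := by simp [kd, hj]
      rw [this, hA1 j hj]
      have := hFb ⟨j.1 / 2, hj⟩ (decide (j.1 % 2 = 1))
      refine this.mono ?_
      simp only [Bool.false_eq_true, if_false]
      omega
    · have : kd j = true := by simp [kd, hj]
      rw [this]
      simp only [if_true]
      exact hbig.le (hAG j)
  have hkd : ∀ i j, kd i = true → kd j = true → i = j := by
    intro i j hi hj
    have h1 : ¬ i.1 / 2 < k / 2 := by simpa [kd] using hi
    have h2 : ¬ j.1 / 2 < k / 2 := by simpa [kd] using hj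
    have hi' := i.2
    have hj' := j.2
    ext
    omega
  obtain ⟨S, hSA, hSac, hSX, hSS⟩ := hHcy V G M k h (2 ^ 11 * (Δ + 2)) kd A X
    (hbig.mono (by omega)) hXX hAG hAd hA2' hAb hkd hM3 (by omega) (by omega) (num_cond hh)
  -- the last forest
  let N : SimpleGraph V := D ⊔ fromEdgeSet S
  have hN : ∀ u v, N.Adj u v ↔ D.Adj u v ∨ (s(u, v) ∈ S ∧ u ≠ v) := by
    intro u v; simp only [N, SimpleGraph.sup_adj, SimpleGraph.fromEdgeSet_adj]
  have hSG1 : ∀ u v, s(u, v) ∈ S → G1.Adj u v := by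
    intro u v huv
    obtain ⟨j, hj⟩ := hSA _ huv
    exact (hAcol j u v hj).1
  have hNG1 : N ≤ G1 := by
    intro u v huv
    rcases (hN u v).1 huv with h1 | h1
    · exact hDG1 h1
    · exact hSG1 u v h1.1
  have hNU : ∀ u v, N.Adj u v → u ∉ U := by
    intro u v huv hu
    rcases (hN u v).1 huv with h1 | h1
    · obtain ⟨q, hq⟩ := (hDadj _ _).1 h1
      exact hDU q u v hq u hu (near_refl _ _)
    · exact hSX _ h1.1 u (Sym2.mem_mk_left _ _) u (Or.inl hu) (near_refl _ _)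
  have hcross : ∀ u v u' v', D.Adj u v → s(u', v') ∈ S → ¬ near G 2 u u' := by
    intro u v u' v' h1 h2 hn
    obtain ⟨y, hy, hy2⟩ := hDe s(u, v) h1
    have hx0 : ∀ x, s(u, v) = s(x, y) → D.Adj x y → near G 1 u x := by
      intro x hxy hD
      have h3 : u ∈ s(u, v) := Sym2.mem_mk_left _ _
      rw [hxy] at h3
      rcases Sym2.mem_iff.1 h3 with h4 | h4
      · rw [h4]; exact near_refl _ _
      · rw [h4]
        exact near_symm (near_adj (hG1 (hDG1 hD)))
    have hx : near G 1 u (Quot.out s(u, v)).1 := hx0 _ hy hy2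
    exact hSX _ h2 u' (Sym2.mem_mk_left _ _) _ (Or.inr ⟨s(u, v), h1, rfl⟩)
      (near_trans (near_symm hn) hx)
  have hfin := hCmp2 V M N hMac hM2 (fun u v huv => hMU u (hNU u v huv)) (by
      intro u v huv hr
      obtain ⟨p, hp⟩ := hMr u v hr
      have h1 := hNG1 huv
      have h2 : G.Adj u v ∧ ¬ M.Adj u v := by simpa [G1, SimpleGraph.sdiff_adj] using h1
      cases p with
      | nil => exact h2.1.ne rfl
      | cons e p =>
        cases p with
        | nil => exact h2.2 e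
        | cons e' p =>
          cases p with
          | nil => exact hb342.triangle (by norm_num) (hMG e) (hMG e') h2.1.symm
          | cons e'' p => simp at hp) (by
      intro u v u' v' h1 h2 hr
      have hn : near G 2 u u' := near_le hMG (hMr _ _ hr)
      rcases (hN u v).1 h1 with h1 | h1 <;> rcases (hN u' v').1 h2 with h2 | h2
      · by_contra hne
        obtain ⟨q, hq⟩ := (hDadj _ _).1 h1
        obtain ⟨q', hq'⟩ := (hDadj _ _).1 h2
        exact hDD q u v q' u' v' hq hq' hne (near_mono (by norm_num) hn)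
      · exact absurd hn (hcross u v u' v' h1 h2.1)
      · exact absurd (near_symm hn) (hcross u' v' u v h2 h1.1)
      · exact hSS _ h1.1 _ h2.1 u (Sym2.mem_mk_left _ _) u' (Sym2.mem_mk_left _ _) hr)
  refine ⟨fun i => if hi : i.1 < k then (A ⟨i.1, hi⟩).deleteEdges S else M ⊔ N, ?_, ?_⟩
  · intro i
    by_cases hi : i.1 < k
    · simp only [hi, dif_pos]
      exact ⟨hSac _, fun v => deleteEdges_deg _ _ (hA2' _) v⟩
    · simp only [hi, dif_neg, not_false_eq_true]
      exact hfin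
  · apply le_antisymm
    · refine iSup_le fun i => ?_
      by_cases hi : i.1 < k
      · simp only [hi, dif_pos]
        exact ((A ⟨i.1, hi⟩).deleteEdges_le S).trans (hAG _)
      · simp only [hi, dif_neg, not_false_eq_true]
        exact sup_le hMG (hNG1.trans hG1)
    · intro u v huv
      rw [SimpleGraph.iSup_adj]
      have hlast : (M ⊔ N).Adj u v → ∃ i : Fin (Δ / 2 + 1),
          (if hi : i.1 < k then (A ⟨i.1, hi⟩).deleteEdges S else M ⊔ N).Adj u v := by
        intro h1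
        refine ⟨⟨k, by omega⟩, ?_⟩
        simpa using h1
      by_cases hM : M.Adj u v
      · exact hlast (Or.inl hM)
      have hg1 : G1.Adj u v := by
        simp only [G1, SimpleGraph.sdiff_adj]; exact ⟨huv, hM⟩
      by_cases hS : s(u, v) ∈ S
      · exact hlast (Or.inr ((hN u v).2 (Or.inr ⟨hS, huv.ne⟩)))
      have hi := hck s(u, v) hg1
      have hput : ∀ j : Fin k, (A j).Adj u v → ∃ i : Fin (Δ / 2 + 1),
          (if hi : i.1 < k then (A ⟨i.1, hi⟩).deleteEdges S else M ⊔ N).Adj u v := by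
        intro j hj
        refine ⟨⟨j.1, by omega⟩, ?_⟩
        have hjk : j.1 < k := j.2
        simp only [hjk, dif_pos]
        rw [SimpleGraph.deleteEdges_adj]
        exact ⟨hj, hS⟩
      by_cases hq : c s(u, v) / 2 < k / 2
      · by_cases hF : ∃ b, (F ⟨c s(u, v) / 2, hq⟩ b).Adj u v
        · obtain ⟨b, hb⟩ := hF
          have hb2 : (if b then 1 else 0) ≤ 1 := by split_ifs <;> omega
          refine hput ⟨2 * (c s(u, v) / 2) + (if b then 1 else 0), by omega⟩ ?_
          have e1 : (2 * (c s(u, v) / 2) + (if b then 1 else 0)) / 2 = c s(u, v) / 2 := by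
            split_ifs <;> omega
          rw [hA1 _ (by rw [e1]; exact hq)]
          have e2 : decide ((2 * (c s(u, v) / 2) + (if b then 1 else 0)) % 2 = 1) = b := by
            cases b <;> simp
          simp only [e1, e2]
          exact hb
        · push Not at hF
          refine hlast (Or.inr ((hN u v).2 (Or.inl ((hDadj u v).2 ⟨⟨c s(u, v) / 2, hq⟩, ?_⟩))))
          rw [SimpleGraph.sdiff_adj, SimpleGraph.sup_adj]
          exact ⟨⟨hg1, rfl⟩, by rintro (h1 | h1); exacts [hF false h1, hF true h1]⟩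
      · refine hput ⟨c s(u, v), hi⟩ ?_
        rw [hA2 _ hq]
        exact ⟨hg1, rfl⟩

end Pool.Agent.LAG.Fin
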