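import Mathlib
import Pool.Agent.Helper76_LAG.Fin
import Pool.Agent.Helper10_LAG.Uniq
import Pool.Agent.Helper10_LAG.Av
import Pool.Agent.Helper10_LAG.Cnt
import Pool.Agent.Helper10_LAG.Sum
import Pool.Agent.Helper25_LAG.Bnd
import Pool.Agent.Helper25_LAG.Card
import Pool.Agent.Helper25_LAG.Deg
import Pool.Agent.Helper25_LAG.Stop
import Pool.Agent.Helper32_LAG.Alll
import Pool.Agent.Helper32_LAG.Jnt
import Pool.Agent.Helper33_LAG.Basl
import Pool.Agent.Helper33_LAG.Lift
import Pool.Agent.Helper33_LAG.Pet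
import Pool.Agent.Helper51_LAG.DedA
import Pool.Agent.Helper51_LAG.Tut
import Pool.Agent.Helper59_LAG.Ded
import Pool.Agent.Helper59_LAG.Par
import Pool.Agent.Helper59_LAG.Hit
import Pool.Agent.Helper73_LAG.DedB
import Pool.Agent.Helper73_LAG.Mz
import Pool.Agent.Helper7_LAG.Cmp2
import Pool.Agent.Helper7_LAG.Hcy
import Pool.Agent.Helper7_LAG.Main
import Pool.Agent.Helper82_LAG.Bit
import Pool.Agent.Helper82_LAG.Prb
import Pool.Agent.Helper82_LAG.Prd
import Pool.Agent.Helper82_LAG.SumB
import Pool.Agent.Helper82_LAG.Tau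
import Pool.Agent.Helper92_LAG.Sega
import Pool.Agent.Helper92_LAG.Segb

/-!
# LAG: assembly of all modules
-/

set_option autoImplicit false

namespace Pool.Agent.LAG

theorem jntAll : JntStmt :=
  jnt alll prd ball lift tam stop card
    (sumB cntP (cntC uniqS cycLen) rch (prb (tau prd) bit))
    (sum2 cntP prd) (sum3 (cntC uniqS cycLen) prd)

theorem mainAll : MainStmt :=
  main jntAll slot (avp (zone uniq)) sega (deg sega) (ded (deda sega segb) (dedb sega))

/-- The final decomposition of graphs of large girth. -/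
theorem fin : FinStmt :=
  Fin.fin_main par mainAll pet (mz (tut (bnd uniqS))) cmp2
    (hcy (hit alll prd) (avc (zone uniq) cycLen) cmp1 cycLen)

end Pool.Agent.LAG
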